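import Pool.Agent.Y645.UL.Bas

/-! Project UL, jobs SEL and NULL. -/

set_option autoImplicit false

namespace Pool.Agent.Y79.UL

open MvPolynomial Module Pool.Agent.Y645.UL

theorem t_SEL : Pool.Agent.Y645.UL.S_SEL := by
  classical
  intro L V σ _ _ _ _ _ E
  obtain ⟨κ, hκ, hmax⟩ := Finset.exists_max_image
    ((Finset.univ : Finset (Finset σ)).filter fun κ : Finset σ => LinearIndepOn L E (κ : Set σ))
    Finset.card
    ⟨∅, by simp⟩
  rw [Finset.mem_filter] at hκ
  have hli := hκ.2
  have hspan : ∀ s, E s ∈ Submodule.span L (E '' (κ : Set σ)) := by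
    intro s
    by_cases hs : s ∈ κ
    · exact Submodule.subset_span ⟨s, hs, rfl⟩
    · by_contra h
      have h1 : LinearIndepOn L E ((insert s κ : Finset σ) : Set σ) := by
        rw [Finset.coe_insert]
        exact (linearIndepOn_insert (by simpa using hs)).2 ⟨hli, h⟩
      have h2 := hmax (insert s κ) (by simpa using h1)
      rw [Finset.card_insert_of_notMem hs] at h2
      omega
  refine ⟨κ, ?_, ?_⟩
  · intro ω hω s
    have h1 : Submodule.span L (E '' (κ : Set σ)) ≤ LinearMap.ker (LinearMap.applyₗ (R := L)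
        (M₂ := L) ω) := by
      rw [Submodule.span_le]
      rintro _ ⟨t, ht, rfl⟩
      exact hω t ht
    exact h1 (hspan s)
  · intro c hc
    have h1 : LinearIndependent L (fun s : κ => E s) := hli
    rw [Fintype.linearIndependent_iff] at h1
    funext s
    refine h1 c ?_ s
    ext ω
    rw [LinearMap.sum_apply]
    simpa using hc ω

theorem t_NULL : Pool.Agent.Y645.UL.S_NULL := by
  intro k L ι _ _ _ _ _ y f
  constructor
  · intro hf
    by_contra h0
    have hg : f * ∏ j, X j ∉ RingHom.ker (aeval (fun j => (y j : L)) :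
        MvPolynomial ι k →ₐ[k] L) := by
      rw [RingHom.mem_ker, map_mul, map_prod]
      refine mul_ne_zero h0 (Finset.prod_ne_zero_iff.2 fun j _ => ?_)
      rw [aeval_X]
      exact (y j).ne_zero
    have hp : (RingHom.ker (aeval (fun j => (y j : L)) : MvPolynomial ι k →ₐ[k] L)).IsPrime :=
      RingHom.ker_isPrime _
    rw [← hp.radical, ← vanishingIdeal_zeroLocus_eq_radical (K := k), mem_vanishingIdeal_iff] at hg
    push Not at hg
    obtain ⟨x, hx, hgx⟩ := hg
    rw [mem_zeroLocus_iff] at hx
    simp only [map_mul, map_prod, aeval_X] at hgx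
    have hx0 : ∀ j, x j ≠ 0 := by
      intro j
      exact Finset.prod_ne_zero_iff.1 (right_ne_zero_of_mul hgx) j (Finset.mem_univ j)
    have hfx := left_ne_zero_of_mul hgx
    refine hfx ?_
    have h1 := hf (fun j => Units.mk0 (x j) (hx0 j)) (by
      intro h hh
      have h2 := hx h (by rw [RingHom.mem_ker]; exact hh)
      simpa using h2)
    simpa using h1
  · intro hf x hx
    exact hx f hf

end Pool.Agent.Y79.UL
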