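import Pool.Agent.Y645.UL.Bas

/-! Project UL, job TD: transcendence degrees under extension of the base field. -/

set_option autoImplicit false

namespace Pool.Agent.Y79.UL

open Pool.Agent.Y645.UL Algebra

/-- algebraic dependence is preserved by an embedding -/
theorem alg_map {k₀ k L : Type} [Field k₀] [Field k] [Field L] [Algebra k₀ k] [Algebra k L]
    [Algebra k₀ L] [IsScalarTower k₀ k L] {S : Set k} {a : k} (h : IsAlgebraic (adjoin k₀ S) a) :
    IsAlgebraic (adjoin k₀ (algebraMap k L '' S)) (algebraMap k L a) := by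
  have hmem : ∀ x : adjoin k₀ S, algebraMap k L x ∈ adjoin k₀ (algebraMap k L '' S) := by
    intro x
    have h1 : (IsScalarTower.toAlgHom k₀ k L) x ∈
        (adjoin k₀ S).map (IsScalarTower.toAlgHom k₀ k L) := ⟨x, x.2, rfl⟩
    rw [AlgHom.map_adjoin] at h1
    exact h1
  obtain ⟨f, hf⟩ : ∃ f : adjoin k₀ S →+* adjoin k₀ (algebraMap k L '' S),
      ∀ x, (f x : L) = algebraMap k L x :=
    ⟨((algebraMap k L).comp (adjoin k₀ S).subtype).codRestrict
      (adjoin k₀ (algebraMap k L '' S)) hmem, fun x => rfl⟩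
  refine h.ringHom_of_comp_eq f (algebraMap k L) ?_ ?_
  · intro x y hxy
    have h1 : (f x : L) = f y := by rw [hxy]
    rw [hf, hf] at h1
    exact Subtype.ext ((algebraMap k L).injective h1)
  · ext x
    exact hf x

theorem t_TD2 : Pool.Agent.Y645.UL.S_TD2 := by
  intro k₀ k L _ _ _ _ _ _ _ ι _ x κ _ c
  obtain ⟨D, hD1, hD2, -⟩ := exists_basis (k := k₀) (fun j => (c j : k))
  obtain ⟨B, hB1, hB2, -⟩ := exists_basis (k := k) (fun j => (x j : L))
  have h := hD2.sumElim_comp hB2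
  have h1 := card_le_td (k := k₀) (x := fun j => ((Sum.elim x (fun i =>
    Units.map (algebraMap k L).toMonoidHom (c i)) j : Lˣ) : L)) h (by
      rintro (b | d)
      · exact alg_self ⟨Sum.inl b, rfl⟩
      · exact alg_self ⟨Sum.inr d, rfl⟩)
  rw [Fintype.card_sum, Fintype.card_coe, Fintype.card_coe, hB1, hD1] at h1
  change td k₀ _ + td k _ ≤ td k₀ _
  rw [add_comm]
  exact h1

theorem t_TD1 : Pool.Agent.Y645.UL.S_COEF → Pool.Agent.Y645.UL.S_TD1 := by
  classical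
  intro hCOEF k₀ k L _ _ _ _ _ _ _ ι _ v
  obtain ⟨B, hB1, hB2, hB3⟩ := exists_basis (k := k) (fun j => (v j : L))
  choose C hC0 hC using fun j => hCOEF k₀ k L ((fun j => (v j : L)) '' (B : Set ι)) (v j) (hB3 j)
  obtain ⟨U, hU⟩ : ∃ U : Finset k, U = Finset.univ.biUnion C := ⟨_, rfl⟩
  have hU0 : ∀ u ∈ U, u ≠ 0 := by
    intro u hu
    rw [hU, Finset.mem_biUnion] at hu
    obtain ⟨j, -, hj⟩ := hu
    exact hC0 j u hj
  have hCU : ∀ j, ∀ u ∈ C j, u ∈ U := by
    intro j u hu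
    rw [hU, Finset.mem_biUnion]
    exact ⟨j, Finset.mem_univ _, hu⟩
  obtain ⟨c, hc⟩ : ∃ c : U → kˣ, ∀ u, (c u : k) = u :=
    ⟨fun u => Units.mk0 (u : k) (hU0 u u.2), fun _ => rfl⟩
  refine ⟨U, inferInstance, c, ?_⟩
  obtain ⟨D, hD1, hD2, hD3⟩ := exists_basis (k := k₀) (fun j => (c j : k))
  obtain ⟨y, hy⟩ : ∃ y : B ⊕ D → L, y = Sum.elim (fun b : B => (v b : L))
    (fun d : D => algebraMap k L (c d)) := ⟨_, rfl⟩
  have hc1 : ∀ u : U, IsAlgebraic (adjoin k₀ (Set.range y)) (algebraMap k L (c u)) := by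
    intro u
    refine alg_mono ?_ (alg_map (L := L) (hD3 u))
    rintro _ ⟨_, ⟨d, hd, rfl⟩, rfl⟩
    exact ⟨Sum.inr ⟨d, hd⟩, by rw [hy]; rfl⟩
  have halg : ∀ j, IsAlgebraic (adjoin k₀ (Set.range y))
      ((Sum.elim v (fun i => Units.map (algebraMap k L).toMonoidHom (c i)) j : Lˣ) : L) := by
    rintro (j | u)
    · refine alg_trans ?_ (hC j)
      rintro _ (⟨b, hb, rfl⟩ | ⟨u, hu, rfl⟩)
      · exact alg_self ⟨Sum.inl ⟨b, hb⟩, by rw [hy]; rfl⟩
      · have := hc1 ⟨u, hCU j u hu⟩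
        rw [hc] at this
        exact this
    · exact hc1 u
  have h1 := td_le_of_alg (k := k₀) halg
  have h2 := td_le_card (k := k₀) y
  rw [Fintype.card_sum, Fintype.card_coe, Fintype.card_coe, hB1, hD1] at h2
  change td k₀ _ ≤ td k₀ _ + td k _
  rw [add_comm]
  exact h1.trans h2

end Pool.Agent.Y79.UL
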